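import Pool.Agent.H354.ISO.Defs2

set_option autoImplicit false

/-! TRANSP: linear isomorphism from a natural transfer of homomorphisms (adapted from
`Pool/Agent/H874/ISO/TRANS.lean` of helper874) -/

namespace Pool.Agent.H740.ISO.TRANSP

open Pool.Agent.H354.ISO

theorem alt_prod {ι A : Type} [CommGroup A] (g : ι → A) (k : ℕ) : ∀ (i j : ι),
    ((CoxeterSystem.alternatingWord i j k).map g).prod = g i ^ (k / 2) * g j ^ ((k + 1) / 2) := by
  induction k with
  | zero => intro i j; simp [CoxeterSystem.alternatingWord]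
  | succ k ih =>
    intro i j
    rw [CoxeterSystem.alternatingWord_succ, List.concat_eq_append, List.map_append,
      List.prod_append, ih, List.map_singleton, List.prod_singleton]
    have h : (k + 1 + 1) / 2 = k / 2 + 1 := by omega
    rw [h, pow_succ, mul_comm (g j ^ (k / 2)), mul_assoc]

theorem alt_eq_of {ι A : Type} [CommGroup A] (g : ι → A) (k : ℕ) (i j : ι)
    (h : Odd k → g i = g j) :
    ((CoxeterSystem.alternatingWord i j k).map g).prod =
      ((CoxeterSystem.alternatingWord j i k).map g).prod := by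
  rw [alt_prod, alt_prod]
  rcases Nat.even_or_odd k with hk | hk
  · obtain ⟨r, rfl⟩ := hk
    have h1 : (r + r) / 2 = r := by omega
    have h2 : (r + r + 1) / 2 = r := by omega
    rw [h1, h2, mul_comm]
  · rw [h hk]

theorem eq_of_alt {ι A : Type} [CommGroup A] (g : ι → A) (k : ℕ) (i j : ι) (hk : Odd k)
    (h : ((CoxeterSystem.alternatingWord i j k).map g).prod =
      ((CoxeterSystem.alternatingWord j i k).map g).prod) : g i = g j := by
  rw [alt_prod, alt_prod] at h
  obtain ⟨r, rfl⟩ := hk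
  have h1 : (2 * r + 1) / 2 = r := by omega
  have h2 : (2 * r + 1 + 1) / 2 = r + 1 := by omega
  rw [h1, h2, pow_succ, pow_succ, mul_comm (g j ^ r) (g i ^ r * g i), mul_assoc] at h
  have h3 := mul_left_cancel h
  rw [mul_comm (g j ^ r) (g j)] at h3
  exact (mul_right_cancel h3).symm

theorem of_eq {n : ℕ} {A : Type} [CommGroup A] (m : Fin n → Fin n → ℕ) (f : Artin m →* A)
    (i j : Fin n) (h : Odd (m i j)) : f (PresentedGroup.of i) = f (PresentedGroup.of j) := by
  have h0 : m i j ≠ 0 := by
    rintro h1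
    rw [h1] at h
    exact absurd h (by decide)
  have h1 : PresentedGroup.mk {r : FreeGroup (Fin n) | ∃ i j : Fin n, m i j ≠ 0 ∧
      r = ((CoxeterSystem.alternatingWord i j (m i j)).map FreeGroup.of).prod *
        (((CoxeterSystem.alternatingWord j i (m i j)).map FreeGroup.of).prod)⁻¹}
        (((CoxeterSystem.alternatingWord i j (m i j)).map FreeGroup.of).prod *
        (((CoxeterSystem.alternatingWord j i (m i j)).map FreeGroup.of).prod)⁻¹) = 1 :=
    PresentedGroup.one_of_mem ⟨i, j, h0, rfl⟩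
  rw [map_mul, map_inv, mul_inv_eq_one, map_list_prod, map_list_prod, List.map_map,
    List.map_map] at h1
  have h2 := congrArg f h1
  rw [map_list_prod, map_list_prod, List.map_map, List.map_map] at h2
  exact eq_of_alt (fun s => f (PresentedGroup.of s)) (m i j) i j h h2

/-- the homomorphism of a function which is constant on the odd classes -/
noncomputable def homOf {n : ℕ} {A : Type} [CommGroup A] (m : Fin n → Fin n → ℕ) (g : Fin n → A)
    (hg : ∀ i j, Odd (m i j) → g i = g j) : Artin m →* A :=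
  PresentedGroup.toGroup (f := g) (by
    rintro r ⟨i, j, h0, rfl⟩
    rw [map_mul, map_inv, mul_inv_eq_one, map_list_prod, map_list_prod, List.map_map,
      List.map_map]
    have h1 : ((FreeGroup.lift g : FreeGroup (Fin n) → A) ∘ FreeGroup.of) = g := by
      funext x
      simp
    rw [h1]
    exact alt_eq_of g _ i j (hg i j))

theorem homOf_of {n : ℕ} {A : Type} [CommGroup A] (m : Fin n → Fin n → ℕ) (g : Fin n → A)
    (hg : ∀ i j, Odd (m i j) → g i = g j) (s : Fin n) :
    homOf m g hg (PresentedGroup.of s) = g s := PresentedGroup.toGroup.of _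

theorem const_cl {n : ℕ} {p : ℕ} (m : Fin n → Fin n → ℕ) (α : OddClass m → ZMod p) (i j : Fin n)
    (h : Odd (m i j)) : Multiplicative.ofAdd (α (cl m i)) = Multiplicative.ofAdd (α (cl m j)) := by
  have h1 : cl m i = cl m j := Quot.sound h
  rw [h1]

/-- the homomorphism of a function on the odd classes -/
noncomputable def hA {n : ℕ} {p : ℕ} (m : Fin n → Fin n → ℕ) (α : OddClass m → ZMod p) :
    Artin m →* Multiplicative (ZMod p) :=
  homOf m (fun s => Multiplicative.ofAdd (α (cl m s))) (const_cl m α)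

theorem hA_of {n : ℕ} {p : ℕ} (m : Fin n → Fin n → ℕ) (α : OddClass m → ZMod p) (s : Fin n) :
    hA m α (PresentedGroup.of s) = Multiplicative.ofAdd (α (cl m s)) := homOf_of _ _ _ s

/-- the function of a homomorphism -/
noncomputable def fn {n : ℕ} {p : ℕ} (m : Fin n → Fin n → ℕ)
    (f : Artin m →* Multiplicative (ZMod p)) : OddClass m → ZMod p :=
  Quot.lift (fun s => Multiplicative.toAdd (f (PresentedGroup.of s)))
    (fun i j h => by rw [of_eq m f i j h])

theorem fn_cl {n : ℕ} {p : ℕ} (m : Fin n → Fin n → ℕ)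
    (f : Artin m →* Multiplicative (ZMod p)) (s : Fin n) :
    fn m f (cl m s) = Multiplicative.toAdd (f (PresentedGroup.of s)) := rfl

theorem hA_fn {n : ℕ} {p : ℕ} (m : Fin n → Fin n → ℕ)
    (f : Artin m →* Multiplicative (ZMod p)) : hA m (fn m f) = f := by
  refine PresentedGroup.ext fun s => ?_
  rw [hA_of, fn_cl, ofAdd_toAdd]

theorem fn_hA {n : ℕ} {p : ℕ} (m : Fin n → Fin n → ℕ) (α : OddClass m → ZMod p) :
    fn m (hA m α) = α := by
  funext C
  induction C using Quot.ind with
  | mk s =>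
    show fn m (hA m α) (cl m s) = α (cl m s)
    rw [fn_cl, hA_of, toAdd_ofAdd]

theorem hA_add {n : ℕ} {p : ℕ} (m : Fin n → Fin n → ℕ) (α β : OddClass m → ZMod p) :
    hA m (α + β) = hA m α * hA m β := by
  refine PresentedGroup.ext fun s => ?_
  rw [MonoidHom.mul_apply, hA_of, hA_of, hA_of, Pi.add_apply, ofAdd_add]

theorem fn_mul {n : ℕ} {p : ℕ} (m : Fin n → Fin n → ℕ)
    (f g : Artin m →* Multiplicative (ZMod p)) : fn m (f * g) = fn m f + fn m g := by
  funext C
  induction C using Quot.ind with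
  | mk s =>
    show fn m (f * g) (cl m s) = fn m f (cl m s) + fn m g (cl m s)
    rw [fn_cl, fn_cl, fn_cl, MonoidHom.mul_apply, toAdd_mul]

theorem go_mul {A B : Type} [Group A] [Group B] (τ : Transfer A B) (Q : Type) [CommGroup Q]
    [Finite Q] (f g : A →* Q) : τ.go Q (f * g) = τ.go Q f * τ.go Q g := by
  obtain ⟨μ, hμ⟩ : ∃ μ : Q × Q →* Q, ∀ z, μ z = z.1 * z.2 := ⟨mulMonoidHom, fun _ => rfl⟩
  have h1 := τ.nat (Q × Q) Q (MonoidHom.fst Q Q) (f.prod g)
  have h2 := τ.nat (Q × Q) Q (MonoidHom.snd Q Q) (f.prod g)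
  have h3 := τ.nat (Q × Q) Q μ (f.prod g)
  have e1 : (MonoidHom.fst Q Q).comp (f.prod g) = f := MonoidHom.fst_comp_prod f g
  have e2 : (MonoidHom.snd Q Q).comp (f.prod g) = g := MonoidHom.snd_comp_prod f g
  have e3 : μ.comp (f.prod g) = f * g := by
    refine MonoidHom.ext fun x => ?_
    rw [MonoidHom.comp_apply, hμ, MonoidHom.mul_apply]
    rfl
  rw [e1] at h1
  rw [e2] at h2
  rw [e3] at h3
  rw [h1, h2, h3]
  refine MonoidHom.ext fun x => ?_
  rw [MonoidHom.comp_apply, hμ, MonoidHom.mul_apply]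
  rfl

/-- the additive equivalence -/
noncomputable def TA {n n' : ℕ} (p : ℕ) [Fact p.Prime] (m : Fin n → Fin n → ℕ)
    (m' : Fin n' → Fin n' → ℕ)
    (τ : Transfer (Artin m) (Artin m')) : (OddClass m → ZMod p) ≃+ (OddClass m' → ZMod p) where
  toFun α := fn m' (τ.go _ (hA m α))
  invFun β := fn m (τ.ba _ (hA m' β))
  left_inv α := by
    show fn m (τ.ba _ (hA m' (fn m' (τ.go _ (hA m α))))) = α
    rw [hA_fn, τ.ba_go, fn_hA]
  right_inv β := by
    show fn m' (τ.go _ (hA m (fn m (τ.ba _ (hA m' β))))) = β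
    rw [hA_fn, τ.go_ba, fn_hA]
  map_add' α β := by
    show fn m' (τ.go _ (hA m (α + β))) = _
    rw [hA_add, go_mul, fn_mul]

theorem t_TRANSP : S_TRANSP := by
  intro p _ n n' M M' τ
  let e := TA p (fun i j => M i j) (fun i j => M' i j) τ
  let T : (OddClass (fun i j => M i j) → ZMod p) ≃ₗ[ZMod p]
      (OddClass (fun i j => M' i j) → ZMod p) :=
    { e with
      map_smul' := by
        intro c x
        exact (AddMonoidHom.toZModLinearMap p e.toAddMonoidHom).map_smul c x }
  have hT : ∀ α, T α = fn (fun i j => M' i j) (τ.go _ (hA (fun i j => M i j) α)) :=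
    fun α => rfl
  refine ⟨T, fun α f => ⟨fun h s' => ?_, fun h s => ?_⟩⟩
  · have h1 : f = hA (fun i j => M i j) α := by
      refine PresentedGroup.ext fun s => ?_
      rw [hA_of, h]
    rw [hT, fn_cl, ofAdd_toAdd, h1]
  · have h1 : τ.go _ f = hA (fun i j => M' i j) (T α) := by
      refine PresentedGroup.ext fun s => ?_
      rw [hA_of, ← h]
    rw [hT, hA_fn] at h1
    have h2 : f = hA (fun i j => M i j) α := by
      have h3 := congrArg (fun g => τ.ba _ g) h1
      simp only [τ.ba_go] at h3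
      exact h3
    rw [h2, hA_of]

end Pool.Agent.H740.ISO.TRANSP
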